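import Mathlib

/-!
# Tiling the plane by pairwise non-similar integer-sided triangles (MP_0d7d47_co)

There is a tiling of the plane by triangles with integer side lengths, no two of which are similar.

Construction.  A rectangle of height `A` and width `u + v` is cut into three triangles by the
segments from a point of the lower side, at distance `u` from the lower left corner, to the two
upper corners.  For `A = 12 s` the numbers `36 s² - 1`, `18 s² - 2`, `12 s² - 3`, `6 s² - 6` are legs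
of right triangles with other leg `A` and integer hypotenuse, and their sum `72 s² - 12` is divisible
by `12`.  So a rectangle whose sides are divisible by `12` can be extended by two rectangles (with
`u, v` the first two and the last two numbers) to a rectangle whose sides are again divisible by
`12`.  Extending a rectangle in this way alternately to the right, upwards, to the left, downwards
gives a tiling of the plane.  The right triangle with legs proportional to `2 t`, `t² - 1` occurs for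
`t = 6 s, 3 s, 2 s, s`, and the other triangles have sides proportional to
`2 t² + 2`, `4 t² + 1`, `6 t² - 3` for `t = 3 s, s`.  As `s` is more than six times the previous `s`,
no two triangles are similar.
-/

set_option autoImplicit false

namespace Pool.Agent.Results.MP_0d7d47_co.RectangleSpiral

open Set

/-! ### The state after `k` steps -/

/-- The rectangle `[-a, b] × [-c, d]`, with `c + d = 12 s` and `a + b = 12 p`. -/
structure St where
  a : ℕ
  b : ℕ
  c : ℕ
  d : ℕ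
  s : ℕ
  p : ℕ

/-- Extend the rectangle to the right and turn it by a quarter turn. -/
def step (x : St) : St :=
  ⟨x.c, x.d, x.b + (72 * x.s ^ 2 - 12), x.a, x.p + (6 * x.s ^ 2 - 1), x.s⟩

def st : ℕ → St
  | 0 => ⟨0, 0, 18, 18, 3, 0⟩
  | k + 1 => step (st k)

lemma st_inv (k : ℕ) : 3 ≤ (st k).s ∧ (st k).c + (st k).d = 12 * (st k).s ∧
    (st k).a + (st k).b = 12 * (st k).p := by
  induction k with
  | zero => decide
  | succ k ih =>
    obtain ⟨h1, h2, h3⟩ := ih
    have h4 : 9 ≤ (st k).s ^ 2 := by nlinarith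
    show 3 ≤ (st k).p + (6 * (st k).s ^ 2 - 1) ∧
      (st k).b + (72 * (st k).s ^ 2 - 12) + (st k).a = 12 * ((st k).p + (6 * (st k).s ^ 2 - 1)) ∧
      (st k).c + (st k).d = 12 * (st k).s
    omega

lemma s_succ (k : ℕ) : 6 * (st k).s < (st (k + 1)).s := by
  obtain ⟨h1, -, -⟩ := st_inv k
  show 6 * (st k).s < (st k).p + (6 * (st k).s ^ 2 - 1)
  have h4 : 3 * (st k).s ≤ (st k).s ^ 2 := by nlinarith
  omega

lemma s_lt {k l : ℕ} (h : k < l) : 6 * (st k).s < (st l).s := by
  induction l with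
  | zero => omega
  | succ l ih =>
    have h1 := s_succ l
    rcases Nat.lt_succ_iff_lt_or_eq.1 h with h2 | h2
    · have := ih h2; omega
    · rw [h2]; exact h1

lemma st_large (n : ℕ) : n ≤ (st (4 * n)).a ∧ n ≤ (st (4 * n)).b ∧ n ≤ (st (4 * n)).c ∧
    n ≤ (st (4 * n)).d := by
  induction n with
  | zero => simp
  | succ n ih =>
    obtain ⟨h1, h2, h3, h4⟩ := ih
    have key : ∀ k, 1 ≤ 72 * (st k).s ^ 2 - 12 := by
      intro k
      have := (st_inv k).1
      have : 9 ≤ (st k).s ^ 2 := by nlinarith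
      omega
    have k0 := key (4 * n)
    have k1 := key (4 * n + 1)
    have k2 := key (4 * n + 2)
    have k3 := key (4 * n + 3)
    have e1 : st (4 * n + 1) = step (st (4 * n)) := rfl
    have e2 : st (4 * n + 2) = step (st (4 * n + 1)) := rfl
    have e3 : st (4 * n + 3) = step (st (4 * n + 2)) := rfl
    have e4 : st (4 * n + 4) = step (st (4 * n + 3)) := rfl
    have e5 : 4 * (n + 1) = 4 * n + 4 := by ring
    rw [e5, e4]
    show n + 1 ≤ (st (4 * n + 3)).c ∧ n + 1 ≤ (st (4 * n + 3)).d ∧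
      n + 1 ≤ (st (4 * n + 3)).b + (72 * (st (4 * n + 3)).s ^ 2 - 12) ∧ n + 1 ≤ (st (4 * n + 3)).a
    have f3 : (st (4 * n + 3)).c = (st (4 * n + 2)).b + (72 * (st (4 * n + 2)).s ^ 2 - 12) := rfl
    have f4 : (st (4 * n + 3)).d = (st (4 * n + 2)).a := rfl
    have f5 : (st (4 * n + 3)).b = (st (4 * n + 2)).d := rfl
    have f6 : (st (4 * n + 3)).a = (st (4 * n + 2)).c := rfl
    have g3 : (st (4 * n + 2)).c = (st (4 * n + 1)).b + (72 * (st (4 * n + 1)).s ^ 2 - 12) := rfl
    have g4 : (st (4 * n + 2)).d = (st (4 * n + 1)).a := rfl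
    have g5 : (st (4 * n + 2)).b = (st (4 * n + 1)).d := rfl
    have g6 : (st (4 * n + 2)).a = (st (4 * n + 1)).c := rfl
    have l3 : (st (4 * n + 1)).c = (st (4 * n)).b + (72 * (st (4 * n)).s ^ 2 - 12) := rfl
    have l4 : (st (4 * n + 1)).d = (st (4 * n)).a := rfl
    have l5 : (st (4 * n + 1)).b = (st (4 * n)).d := rfl
    have l6 : (st (4 * n + 1)).a = (st (4 * n)).c := rfl
    omega

/-! ### Frames -/

/-- The quarter turn `z ↦ i z`. -/
noncomputable def rotI : ℂ ≃ₗᵢ[ℝ] ℂ where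
  toFun z := Complex.I * z
  invFun z := -Complex.I * z
  map_add' x y := by ring
  map_smul' r z := by simp [mul_left_comm]
  left_inv z := by
    show -Complex.I * (Complex.I * z) = z
    rw [← mul_assoc, neg_mul, Complex.I_mul_I, neg_neg, one_mul]
  right_inv z := by
    show Complex.I * (-Complex.I * z) = z
    rw [← mul_assoc, mul_neg, Complex.I_mul_I, neg_neg, one_mul]
  norm_map' z := by
    show ‖Complex.I * z‖ = ‖z‖
    simp

lemma rotI_symm (z : ℂ) : rotI.symm z = -Complex.I * z := rfl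

/-- The frame after `k` quarter turns. -/
noncomputable def g : ℕ → (ℂ ≃ₗᵢ[ℝ] ℂ)
  | 0 => LinearIsometryEquiv.refl ℝ ℂ
  | k + 1 => rotI.trans (g k)

lemma g_succ_symm (k : ℕ) (z : ℂ) : (g (k + 1)).symm z = -Complex.I * (g k).symm z := rfl

/-- The rectangle after `k` steps. -/
def R (k : ℕ) : Set ℂ :=
  {z | -((st k).a : ℝ) ≤ ((g k).symm z).re ∧ ((g k).symm z).re ≤ (st k).b ∧
    -((st k).c : ℝ) ≤ ((g k).symm z).im ∧ ((g k).symm z).im ≤ (st k).d}

/-- The width of the extension in step `k`. -/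
noncomputable def H (k : ℕ) : ℝ := 72 * ((st k).s : ℝ) ^ 2 - 12

lemma s_ge (k : ℕ) : (3 : ℝ) ≤ (st k).s := by exact_mod_cast (st_inv k).1

lemma cast_H (k : ℕ) : ((72 * (st k).s ^ 2 - 12 : ℕ) : ℝ) = H k := by
  have h1 := (st_inv k).1
  have h2 : 12 ≤ 72 * (st k).s ^ 2 := by nlinarith
  rw [Nat.cast_sub h2]
  unfold H
  push_cast
  ring

lemma mem_R_succ (k : ℕ) (z : ℂ) : z ∈ R (k + 1) ↔
    -((st k).a : ℝ) ≤ ((g k).symm z).re ∧ ((g k).symm z).re ≤ (st k).b + H k ∧
    -((st k).c : ℝ) ≤ ((g k).symm z).im ∧ ((g k).symm z).im ≤ (st k).d := by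
  have e1 : ((g (k + 1)).symm z).re = ((g k).symm z).im := by
    rw [g_succ_symm]; simp
  have e2 : ((g (k + 1)).symm z).im = -((g k).symm z).re := by
    rw [g_succ_symm]; simp
  unfold R
  rw [Set.mem_ofPred_eq, e1, e2]
  have a1 : ((st (k + 1)).a : ℝ) = (st k).c := rfl
  have a2 : ((st (k + 1)).b : ℝ) = (st k).d := rfl
  have a3 : ((st (k + 1)).c : ℝ) = (st k).b + H k := by
    rw [← cast_H, ← Nat.cast_add]; rfl
  have a4 : ((st (k + 1)).d : ℝ) = (st k).a := rfl
  rw [a1, a2, a3, a4]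
  constructor
  · rintro ⟨h1, h2, h3, h4⟩
    refine ⟨by linarith, by linarith, h1, h2⟩
  · rintro ⟨h1, h2, h3, h4⟩
    refine ⟨h3, h4, by linarith, by linarith⟩

lemma H_pos (k : ℕ) : 0 < H k := by
  have := s_ge k
  unfold H
  nlinarith

lemma R_mono {k l : ℕ} (h : k ≤ l) : R k ⊆ R l := by
  induction h with
  | refl => exact subset_rfl
  | step h ih =>
    refine ih.trans fun z hz => ?_
    rw [mem_R_succ]
    obtain ⟨h1, h2, h3, h4⟩ := hz
    exact ⟨h1, h2.trans (le_add_of_nonneg_right (H_pos _).le), h3, h4⟩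

lemma exists_mem_R (z : ℂ) : ∃ k, z ∈ R k := by
  obtain ⟨n, hn⟩ := exists_nat_ge ‖z‖
  refine ⟨4 * n, ?_⟩
  obtain ⟨h1, h2, h3, h4⟩ := st_large n
  have b1 : (n : ℝ) ≤ (st (4 * n)).a := by exact_mod_cast h1
  have b2 : (n : ℝ) ≤ (st (4 * n)).b := by exact_mod_cast h2
  have b3 : (n : ℝ) ≤ (st (4 * n)).c := by exact_mod_cast h3
  have b4 : (n : ℝ) ≤ (st (4 * n)).d := by exact_mod_cast h4
  have e : ‖(g (4 * n)).symm z‖ = ‖z‖ := (g (4 * n)).symm.norm_map z
  have c1 := Complex.abs_re_le_norm ((g (4 * n)).symm z)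
  have c2 := Complex.abs_im_le_norm ((g (4 * n)).symm z)
  rw [e] at c1 c2
  rw [abs_le] at c1 c2
  refine ⟨?_, ?_, ?_, ?_⟩ <;> linarith

/-! ### A box of three triangles -/

/-- The three triangles of the box `[x, x + w + w'] × [-c, d]`. -/
noncomputable def box (x c d w w' : ℝ) : Fin 3 → Fin 3 → ℂ :=
  ![![⟨x, -c⟩, ⟨x, d⟩, ⟨x + w, -c⟩],
    ![⟨x + w, -c⟩, ⟨x, d⟩, ⟨x + w + w', d⟩],
    ![⟨x + w, -c⟩, ⟨x + w + w', -c⟩, ⟨x + w + w', d⟩]]

lemma mem_hull (V : Fin 3 → ℂ) (α β γ : ℝ) (h1 : 0 ≤ α) (h2 : 0 ≤ β) (h3 : 0 ≤ γ)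
    (h : α + β + γ = 1) (z : ℂ) (hre : z.re = α * (V 0).re + β * (V 1).re + γ * (V 2).re)
    (him : z.im = α * (V 0).im + β * (V 1).im + γ * (V 2).im) :
    z ∈ convexHull ℝ (range V) := by
  have := (convex_convexHull ℝ (range V)).sum_mem (t := Finset.univ) (w := ![α, β, γ]) (z := V)
    (by intro i _; fin_cases i <;> simp [h1, h2, h3]) (by simp [Fin.sum_univ_three, h])
    (fun i _ => subset_convexHull ℝ _ (mem_range_self i))
  rw [Fin.sum_univ_three] at this
  have hz : z = α • V 0 + β • V 1 + γ • V 2 := by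
    apply Complex.ext
    · simp only [Complex.add_re, Complex.smul_re, smul_eq_mul, hre]
    · simp only [Complex.add_im, Complex.smul_im, smul_eq_mul, him]
  rw [hz]
  simpa using this

lemma box_cover (x c d w w' : ℝ) (hh : 0 < c + d) (hw : 0 < w) (hw' : 0 < w') (z : ℂ)
    (h1 : x ≤ z.re) (h2 : z.re ≤ x + w + w') (h3 : -c ≤ z.im) (h4 : z.im ≤ d) :
    ∃ i, z ∈ convexHull ℝ (range (box x c d w w' i)) := by
  obtain ⟨t, ht⟩ : ∃ t : ℝ, t * (c + d) = z.im + c := ⟨(z.im + c) / (c + d), by field_simp⟩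
  have ht0 : 0 ≤ t := by
    by_contra h
    push Not at h
    nlinarith
  have ht1 : t ≤ 1 := by
    by_contra h
    push Not at h
    nlinarith
  by_cases hA : z.re - x ≤ w * (1 - t)
  · obtain ⟨r, hr⟩ : ∃ r : ℝ, r * w = z.re - x := ⟨(z.re - x) / w, by field_simp⟩
    have hr0 : 0 ≤ r := by
      by_contra h
      push Not at h
      nlinarith
    have hr1 : r ≤ 1 - t := by
      by_contra h
      push Not at h
      nlinarith
    refine ⟨0, mem_hull _ (1 - t - r) t r (by linarith) ht0 hr0 (by ring) z ?_ ?_⟩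
    · show z.re = (1 - t - r) * x + t * x + r * (x + w)
      linear_combination -hr
    · show z.im = (1 - t - r) * (-c) + t * d + r * (-c)
      linear_combination -ht
  · push Not at hA
    by_cases hB : z.re - x - w ≤ t * w'
    · have hww : 0 < w + w' := by linarith
      obtain ⟨r, hr⟩ : ∃ r : ℝ, r * (w + w') = z.re - x - w * (1 - t) :=
        ⟨(z.re - x - w * (1 - t)) / (w + w'), by field_simp⟩
      have hr0 : 0 ≤ r := by
        by_contra h
        push Not at h
        nlinarith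
      have hr1 : r ≤ t := by
        by_contra h
        push Not at h
        nlinarith
      refine ⟨1, mem_hull _ (1 - t) (t - r) r (by linarith) (by linarith) hr0 (by ring) z ?_ ?_⟩
      · show z.re = (1 - t) * (x + w) + (t - r) * x + r * (x + w + w')
        linear_combination -hr
      · show z.im = (1 - t) * (-c) + (t - r) * d + r * d
        linear_combination -ht
    · push Not at hB
      obtain ⟨r, hr⟩ : ∃ r : ℝ, r * w' = z.re - x - w := ⟨(z.re - x - w) / w', by field_simp⟩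
      have hr0 : t ≤ r := by
        by_contra h
        push Not at h
        nlinarith
      have hr1 : r ≤ 1 := by
        by_contra h
        push Not at h
        nlinarith
      refine ⟨2, mem_hull _ (1 - r) (r - t) t (by linarith) (by linarith) ht0 (by ring) z ?_ ?_⟩
      · show z.re = (1 - r) * (x + w) + (r - t) * (x + w + w') + t * (x + w + w')
        linear_combination -hr
      · show z.im = (1 - r) * (-c) + (r - t) * (-c) + t * d
        linear_combination -ht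

/-! ### The tiles -/

/-- The vertices, in frame `k`, of the triangle number `i` of the box number `j` of step `k`. -/
noncomputable def v (k : ℕ) (j : Fin 2) : Fin 3 → Fin 3 → ℂ :=
  if j = 0 then
    box (st k).b (st k).c (st k).d (36 * ((st k).s : ℝ) ^ 2 - 1) (18 * ((st k).s : ℝ) ^ 2 - 2)
  else
    box ((st k).b + (54 * ((st k).s : ℝ) ^ 2 - 3)) (st k).c (st k).d
      (12 * ((st k).s : ℝ) ^ 2 - 3) (6 * ((st k).s : ℝ) ^ 2 - 6)

/-- The tiles. -/
noncomputable def T (x : ℕ × Fin 2 × Fin 3) (i : Fin 3) : ℂ := g x.1 (v x.1 x.2.1 x.2.2 i)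

lemma sq_ge (k : ℕ) : (9 : ℝ) ≤ ((st k).s : ℝ) ^ 2 := by
  have := s_ge k
  nlinarith

lemma cd_eq (k : ℕ) : ((st k).c : ℝ) + (st k).d = 12 * (st k).s := by
  exact_mod_cast (st_inv k).2.1

lemma hull_T (x : ℕ × Fin 2 × Fin 3) (z : ℂ)
    (hz : (g x.1).symm z ∈ convexHull ℝ (range (v x.1 x.2.1 x.2.2))) :
    z ∈ convexHull ℝ (range (T x)) := by
  have h1 : range (T x) = (g x.1).toLinearEquiv.toLinearMap '' range (v x.1 x.2.1 x.2.2) := by
    rw [← range_comp]; rfl
  rw [h1, ← LinearMap.image_convexHull]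
  exact ⟨_, hz, (g x.1).apply_symm_apply z⟩

lemma cover_step (k : ℕ) (z : ℂ) (hz : z ∈ R (k + 1)) :
    z ∈ R k ∨ ∃ x, z ∈ convexHull ℝ (range (T x)) := by
  rw [mem_R_succ] at hz
  obtain ⟨h1, h2, h3, h4⟩ := hz
  have hs := sq_ge k
  have hs1 := s_ge k
  have hcd := cd_eq k
  unfold H at h2
  by_cases hb : ((g k).symm z).re ≤ (st k).b
  · exact Or.inl ⟨h1, hb, h3, h4⟩
  right
  push Not at hb
  by_cases hb2 : ((g k).symm z).re ≤ (st k).b + (54 * ((st k).s : ℝ) ^ 2 - 3)
  · obtain ⟨i, hi⟩ := box_cover (st k).b (st k).c (st k).d (36 * ((st k).s : ℝ) ^ 2 - 1)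
      (18 * ((st k).s : ℝ) ^ 2 - 2) (by linarith) (by linarith) (by linarith) ((g k).symm z) hb.le
      (by linarith) h3 h4
    exact ⟨(k, 0, i), hull_T (k, 0, i) z hi⟩
  · push Not at hb2
    obtain ⟨i, hi⟩ := box_cover ((st k).b + (54 * ((st k).s : ℝ) ^ 2 - 3)) (st k).c (st k).d
      (12 * ((st k).s : ℝ) ^ 2 - 3) (6 * ((st k).s : ℝ) ^ 2 - 6) (by linarith) (by linarith)
      (by linarith) ((g k).symm z) hb2.le (by linarith) h3 h4
    exact ⟨(k, 1, i), hull_T (k, 1, i) z hi⟩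

lemma cover (k : ℕ) (z : ℂ) (hz : z ∈ R k) : ∃ x, z ∈ convexHull ℝ (range (T x)) := by
  induction k with
  | zero =>
    have : z ∈ R 1 := R_mono (by norm_num) hz
    rw [mem_R_succ] at this
    obtain ⟨h1, h2, h3, h4⟩ := hz
    have hs := sq_ge 0
    have hs1 := s_ge 0
    have hcd := cd_eq 0
    have e1 : ((g 0).symm z).re = (st 0).b := by
      have : ((st 0).a : ℝ) = 0 := by norm_num [st]
      have : ((st 0).b : ℝ) = 0 := by norm_num [st]
      linarith
    obtain ⟨i, hi⟩ := box_cover (st 0).b (st 0).c (st 0).d (36 * ((st 0).s : ℝ) ^ 2 - 1)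
      (18 * ((st 0).s : ℝ) ^ 2 - 2) (by linarith) (by linarith) (by linarith) ((g 0).symm z) e1.ge
      (by linarith) h3 h4
    exact ⟨(0, 0, i), hull_T (0, 0, i) z hi⟩
  | succ k ih =>
    rcases cover_step k z hz with h | h
    · exact ih h
    · exact h

/-! ### Interiors -/

lemma disj (e : ℂ ≃ₗᵢ[ℝ] ℂ) (W W' : Fin 3 → ℂ) (α β K : ℝ) (h0 : α ≠ 0 ∨ β ≠ 0)
    (h1 : ∀ m, α * (e (W m)).re + β * (e (W m)).im ≤ K)
    (h2 : ∀ m, K ≤ α * (e (W' m)).re + β * (e (W' m)).im) :
    Disjoint (interior (convexHull ℝ (range W))) (interior (convexHull ℝ (range W'))) := by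
  set f : ℂ →L[ℝ] ℝ := (α • Complex.reCLM + β • Complex.imCLM).comp
    (e.toContinuousLinearEquiv : ℂ →L[ℝ] ℂ) with hf
  have fa : ∀ z, f z = α * (e z).re + β * (e z).im := fun z => rfl
  have hne : f ≠ 0 := by
    intro h
    have k1 : f (e.symm 1) = 0 := by rw [h]; rfl
    have k2 : f (e.symm Complex.I) = 0 := by rw [h]; rfl
    rw [fa, e.apply_symm_apply] at k1 k2
    simp at k1 k2
    rcases h0 with h0 | h0
    · exact h0 k1
    · exact h0 k2
  have hopen := f.isOpenMap_of_ne_zero hne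
  rw [Set.disjoint_left]
  intro z hz hz'
  have c1 : convexHull ℝ (range W) ⊆ f ⁻¹' (Iic K) := by
    apply convexHull_min
    · rintro _ ⟨m, rfl⟩
      exact (fa _).trans_le (h1 m)
    · exact (convex_Iic K).linear_preimage f.toLinearMap
  have c2 : convexHull ℝ (range W') ⊆ f ⁻¹' (Ici K) := by
    apply convexHull_min
    · rintro _ ⟨m, rfl⟩
      exact (h2 m).trans_eq (fa _).symm
    · exact (convex_Ici K).linear_preimage f.toLinearMap
  have d1 := interior_mono c1 hz
  have d2 := interior_mono c2 hz'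
  rw [← hopen.preimage_interior_eq_interior_preimage f.continuous, interior_Iic] at d1
  rw [← hopen.preimage_interior_eq_interior_preimage f.continuous, interior_Ici] at d2
  have d3 : f z < K := d1
  have d4 : K < f z := d2
  linarith

lemma box_bounds (x c d w w' : ℝ) (hh : 0 ≤ c + d) (hw : 0 ≤ w) (hw' : 0 ≤ w') (i m : Fin 3) :
    x ≤ (box x c d w w' i m).re ∧ (box x c d w w' i m).re ≤ x + w + w' ∧
      -c ≤ (box x c d w w' i m).im ∧ (box x c d w w' i m).im ≤ d := by
  fin_cases i <;> fin_cases m <;> simp [box] <;>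
    (try refine ⟨?_, ?_⟩) <;> (try refine ⟨?_, ?_⟩) <;> linarith

lemma v_zero (k : ℕ) : v k 0 = box (st k).b (st k).c (st k).d (36 * ((st k).s : ℝ) ^ 2 - 1)
    (18 * ((st k).s : ℝ) ^ 2 - 2) := rfl

lemma v_one (k : ℕ) : v k 1 = box ((st k).b + (54 * ((st k).s : ℝ) ^ 2 - 3)) (st k).c (st k).d
      (12 * ((st k).s : ℝ) ^ 2 - 3) (6 * ((st k).s : ℝ) ^ 2 - 6) := rfl

lemma v_bounds (k : ℕ) (j : Fin 2) (i m : Fin 3) :
    ((st k).b : ℝ) ≤ (v k j i m).re ∧ (v k j i m).re ≤ (st k).b + H k ∧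
      -((st k).c : ℝ) ≤ (v k j i m).im ∧ (v k j i m).im ≤ (st k).d := by
  have hs := sq_ge k
  have hs1 := s_ge k
  have hcd := cd_eq k
  have hH : H k = 72 * ((st k).s : ℝ) ^ 2 - 12 := rfl
  fin_cases j
  · have := box_bounds (st k).b (st k).c (st k).d (36 * ((st k).s : ℝ) ^ 2 - 1)
      (18 * ((st k).s : ℝ) ^ 2 - 2) (by linarith) (by linarith) (by linarith) i m
    obtain ⟨h1, h2, h3, h4⟩ := this
    exact ⟨h1, h2.trans (by linarith), h3, h4⟩
  · have := box_bounds ((st k).b + (54 * ((st k).s : ℝ) ^ 2 - 3)) (st k).c (st k).d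
      (12 * ((st k).s : ℝ) ^ 2 - 3) (6 * ((st k).s : ℝ) ^ 2 - 6) (by linarith) (by linarith)
      (by linarith) i m
    obtain ⟨h1, h2, h3, h4⟩ := this
    exact ⟨le_trans (by linarith) h1, h2.trans (by linarith), h3, h4⟩

lemma T_symm (k : ℕ) (j : Fin 2) (i m : Fin 3) : (g k).symm (T (k, j, i) m) = v k j i m :=
  (g k).symm_apply_apply _

lemma T_mem_R (k : ℕ) (j : Fin 2) (i m : Fin 3) : T (k, j, i) m ∈ R (k + 1) := by
  rw [mem_R_succ, T_symm]
  obtain ⟨h1, h2, h3, h4⟩ := v_bounds k j i m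
  have : (0 : ℝ) ≤ (st k).a := Nat.cast_nonneg _
  have : (0 : ℝ) ≤ (st k).b := Nat.cast_nonneg _
  exact ⟨by linarith, h2, h3, h4⟩

lemma box_disj (k : ℕ) (x c d w w' : ℝ) (hh : 0 < c + d) (hw : 0 < w) (hw' : 0 < w') (i i' : Fin 3)
    (h : i < i') (W W' : Fin 3 → ℂ) (hW : ∀ m, (g k).symm (W m) = box x c d w w' i m)
    (hW' : ∀ m, (g k).symm (W' m) = box x c d w w' i' m) :
    Disjoint (interior (convexHull ℝ (range W))) (interior (convexHull ℝ (range W'))) := by
  have hcases := (by decide : ∀ i i' : Fin 3, i < i' →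
    (i = 0 ∧ i' = 1) ∨ (i = 0 ∧ i' = 2) ∨ (i = 1 ∧ i' = 2)) i i' h
  rcases hcases with ⟨rfl, rfl⟩ | ⟨rfl, rfl⟩ | ⟨rfl, rfl⟩
  · refine disj (g k).symm W W' (c + d) w (x * (c + d) + d * w) (Or.inl hh.ne') ?_ ?_
    · intro m
      rw [hW]
      fin_cases m <;> simp [box] <;> nlinarith
    · intro m
      rw [hW']
      fin_cases m <;> simp [box] <;> nlinarith
  · refine disj (g k).symm W W' 1 0 (x + w) (Or.inl one_ne_zero) ?_ ?_
    · intro m
      rw [hW]
      fin_cases m <;> simp [box] <;> linarith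
    · intro m
      rw [hW']
      fin_cases m <;> simp [box] <;> linarith
  · refine disj (g k).symm W W' (c + d) (-w') ((x + w) * (c + d) + c * w') (Or.inl hh.ne') ?_ ?_
    · intro m
      rw [hW]
      fin_cases m <;> simp [box] <;> nlinarith
    · intro m
      rw [hW']
      fin_cases m <;> simp [box] <;> nlinarith

lemma disj_same (k : ℕ) (j : Fin 2) (i i' : Fin 3) (h : i < i') :
    Disjoint (interior (convexHull ℝ (range (T (k, j, i)))))
      (interior (convexHull ℝ (range (T (k, j, i'))))) := by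
  have hs := sq_ge k
  have hs1 := s_ge k
  have hcd := cd_eq k
  fin_cases j
  · exact box_disj k (st k).b (st k).c (st k).d (36 * ((st k).s : ℝ) ^ 2 - 1)
      (18 * ((st k).s : ℝ) ^ 2 - 2) (by linarith) (by linarith) (by linarith) i i' h _ _
      (fun m => T_symm k 0 i m) (fun m => T_symm k 0 i' m)
  · exact box_disj k ((st k).b + (54 * ((st k).s : ℝ) ^ 2 - 3)) (st k).c (st k).d
      (12 * ((st k).s : ℝ) ^ 2 - 3) (6 * ((st k).s : ℝ) ^ 2 - 6) (by linarith) (by linarith)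
      (by linarith) i i' h _ _ (fun m => T_symm k 1 i m) (fun m => T_symm k 1 i' m)

lemma disj_boxes (k : ℕ) (i i' : Fin 3) :
    Disjoint (interior (convexHull ℝ (range (T (k, 0, i)))))
      (interior (convexHull ℝ (range (T (k, 1, i'))))) := by
  have hs := sq_ge k
  have hs1 := s_ge k
  have hcd := cd_eq k
  refine disj (g k).symm _ _ 1 0 ((st k).b + (54 * ((st k).s : ℝ) ^ 2 - 3)) (Or.inl one_ne_zero)
    ?_ ?_
  · intro m
    have := box_bounds (st k).b (st k).c (st k).d (36 * ((st k).s : ℝ) ^ 2 - 1)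
      (18 * ((st k).s : ℝ) ^ 2 - 2) (by linarith) (by linarith) (by linarith) i m
    rw [T_symm, v_zero]
    linarith [this.2.1]
  · intro m
    have := box_bounds ((st k).b + (54 * ((st k).s : ℝ) ^ 2 - 3)) (st k).c (st k).d
      (12 * ((st k).s : ℝ) ^ 2 - 3) (6 * ((st k).s : ℝ) ^ 2 - 6) (by linarith) (by linarith)
      (by linarith) i' m
    rw [T_symm, v_one]
    linarith [this.1]

lemma disj_steps {k k' : ℕ} (h : k < k') (j j' : Fin 2) (i i' : Fin 3) :
    Disjoint (interior (convexHull ℝ (range (T (k, j, i)))))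
      (interior (convexHull ℝ (range (T (k', j', i'))))) := by
  refine disj (g k').symm _ _ 1 0 (st k').b (Or.inl one_ne_zero) ?_ ?_
  · intro m
    have h1 := R_mono (Nat.succ_le_of_lt h) (T_mem_R k j i m)
    have := h1.2.1
    linarith
  · intro m
    rw [T_symm]
    have := (v_bounds k' j' i' m).1
    linarith

lemma disj_all (x y : ℕ × Fin 2 × Fin 3) (h : x ≠ y) :
    Disjoint (interior (convexHull ℝ (range (T x)))) (interior (convexHull ℝ (range (T y)))) := by
  obtain ⟨k, j, i⟩ := x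
  obtain ⟨k', j', i'⟩ := y
  rcases lt_trichotomy k k' with hk | rfl | hk
  · exact disj_steps hk j j' i i'
  · by_cases hj : j = j'
    · subst hj
      have hi : i ≠ i' := by rintro rfl; exact h rfl
      rcases lt_or_gt_of_ne hi with h1 | h1
      · exact disj_same k j i i' h1
      · exact (disj_same k j i' i h1).symm
    · have : (j = 0 ∧ j' = 1) ∨ (j = 1 ∧ j' = 0) := by
        revert hj; clear h; revert j j'; decide
      rcases this with ⟨rfl, rfl⟩ | ⟨rfl, rfl⟩
      · exact disj_boxes k i i'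
      · exact (disj_boxes k i' i).symm
  · exact (disj_steps hk j' j i' i).symm

/-! ### Side lengths -/

/-- The triangle `V` has side lengths `x`, `y`, `z`. -/
def Sides {P : Type} [PseudoMetricSpace P] (V : Fin 3 → P) (x y z : ℝ) : Prop :=
  ∃ i j k : Fin 3, i ≠ j ∧ j ≠ k ∧ i ≠ k ∧ dist (V i) (V j) = x ∧ dist (V j) (V k) = y ∧
    dist (V i) (V k) = z

lemma cases3 : ∀ i j k m : Fin 3, i ≠ j → j ≠ k → i ≠ k → m = i ∨ m = j ∨ m = k := by decide

lemma Sides.similar {P : Type} [PseudoMetricSpace P] {V V' : Fin 3 → P} {x y z x' y' z' : ℝ}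
    (h : Sides V x y z) (h' : Sides V' x' y' z') (hxy : x < y) (hyz : y < z) (hxy' : x' < y')
    (hyz' : y' < z') (σ : Equiv.Perm (Fin 3)) (hs : Similar V (V' ∘ σ)) :
    x * z' = x' * z ∧ y * z' = y' * z := by
  obtain ⟨r, hr, hd⟩ := similar_iff_exists_pos_dist_eq.1 hs
  obtain ⟨i, j, k, hij, hjk, hik, rfl, rfl, rfl⟩ := h
  obtain ⟨i', j', k', hij', hjk', hik', h1, h2, h3⟩ := h'
  have g1 : dist (V' j') (V' i') = x' := by rw [dist_comm, h1]
  have g2 : dist (V' k') (V' j') = y' := by rw [dist_comm, h2]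
  have g3 : dist (V' k') (V' i') = z' := by rw [dist_comm, h3]
  have X := hd i j
  have Y := hd j k
  have Z := hd i k
  simp only [Function.comp_apply] at X Y Z
  obtain ⟨a, ha⟩ : ∃ a, a = σ i := ⟨_, rfl⟩
  obtain ⟨b, hb⟩ : ∃ b, b = σ j := ⟨_, rfl⟩
  obtain ⟨c, hc⟩ : ∃ c, c = σ k := ⟨_, rfl⟩
  have hab : a ≠ b := by rw [ha, hb]; exact fun h => hij (σ.injective h)
  have hbc : b ≠ c := by rw [hb, hc]; exact fun h => hjk (σ.injective h)
  have hac : a ≠ c := by rw [ha, hc]; exact fun h => hik (σ.injective h)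
  rw [← ha, ← hb] at X
  rw [← hb, ← hc] at Y
  rw [← ha, ← hc] at Z
  rw [X, Y] at hxy
  rw [Y, Z] at hyz
  have hxy2 := lt_of_mul_lt_mul_left hxy hr.le
  have hyz2 := lt_of_mul_lt_mul_left hyz hr.le
  rw [X, Y, Z]
  rcases cases3 i' j' k' a hij' hjk' hik' with rfl | rfl | rfl <;>
  rcases cases3 _ _ _ b hij' hjk' hik' with rfl | rfl | rfl <;>
  rcases cases3 _ _ _ c hij' hjk' hik' with rfl | rfl | rfl <;>
  first
  | exact absurd rfl hab
  | exact absurd rfl hbc
  | exact absurd rfl hac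
  | (rw [h1, h2, h3]; constructor <;> ring)
  | (exfalso; simp only [h1, h2, h3, g1, g2, g3] at hxy2 hyz2; linarith)

/-- `κ = false`: sides proportional to `2 t`, `t² - 1`, `t² + 1`; `κ = true`: sides proportional to
`2 t² + 2`, `4 t² + 1`, `6 t² - 3`. -/
def Shape {P : Type} [PseudoMetricSpace P] (V : Fin 3 → P) (κ : Bool) (t : ℝ) : Prop :=
  ∃ l : ℝ, 0 < l ∧ if κ then Sides V (l * (2 * t ^ 2 + 2)) (l * (4 * t ^ 2 + 1))
    (l * (6 * t ^ 2 - 3)) else Sides V (l * (2 * t)) (l * (t ^ 2 - 1)) (l * (t ^ 2 + 1))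

lemma Shape.similar {P : Type} [PseudoMetricSpace P] {V V' : Fin 3 → P} {κ κ' : Bool} {t t' : ℝ}
    (h : Shape V κ t) (h' : Shape V' κ' t') (ht : 3 ≤ t) (ht' : 3 ≤ t')
    (σ : Equiv.Perm (Fin 3)) (hs : Similar V (V' ∘ σ)) : κ = κ' ∧ t = t' := by
  obtain ⟨l, hl, h⟩ := h
  obtain ⟨l', hl', h'⟩ := h'
  have q : 9 ≤ t ^ 2 := by nlinarith
  have q' : 9 ≤ t' ^ 2 := by nlinarith
  have hll : 0 < l * l' := mul_pos hl hl'
  have e1 : l * (2 * t) < l * (t ^ 2 - 1) := mul_lt_mul_of_pos_left (by nlinarith) hl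
  have e2 : l * (t ^ 2 - 1) < l * (t ^ 2 + 1) := mul_lt_mul_of_pos_left (by linarith) hl
  have e3 : l * (2 * t ^ 2 + 2) < l * (4 * t ^ 2 + 1) := mul_lt_mul_of_pos_left (by linarith) hl
  have e4 : l * (4 * t ^ 2 + 1) < l * (6 * t ^ 2 - 3) := mul_lt_mul_of_pos_left (by linarith) hl
  have e1' : l' * (2 * t') < l' * (t' ^ 2 - 1) := mul_lt_mul_of_pos_left (by nlinarith) hl'
  have e2' : l' * (t' ^ 2 - 1) < l' * (t' ^ 2 + 1) := mul_lt_mul_of_pos_left (by linarith) hl'
  have e3' : l' * (2 * t' ^ 2 + 2) < l' * (4 * t' ^ 2 + 1) :=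
    mul_lt_mul_of_pos_left (by linarith) hl'
  have e4' : l' * (4 * t' ^ 2 + 1) < l' * (6 * t' ^ 2 - 3) :=
    mul_lt_mul_of_pos_left (by linarith) hl'
  cases κ <;> cases κ' <;> simp only [Bool.false_eq_true, if_true, if_false] at h h'
  · obtain ⟨a1, -⟩ := h.similar h' e1 e2 e1' e2' σ hs
    refine ⟨rfl, ?_⟩
    have : (l * l') * ((t - t') * (1 - t * t')) = 0 := by linear_combination a1 / 2
    rcases mul_eq_zero.1 this with h3 | h3
    · exact absurd h3 hll.ne'
    · rcases mul_eq_zero.1 h3 with h4 | h4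
      · linarith
      · exfalso; nlinarith
  · exfalso
    obtain ⟨a1, a2⟩ := h.similar h' e1 e2 e3' e4' σ hs
    -- a1 : l (2t) * l' (6t'^2-3) = l'(2t'^2+2) * l (t^2+1)
    have b1 : (2 * t) * (6 * t' ^ 2 - 3) = (2 * t' ^ 2 + 2) * (t ^ 2 + 1) := by
      apply mul_left_cancel₀ hll.ne'
      linear_combination a1
    have b2 : (t ^ 2 - 1) * (6 * t' ^ 2 - 3) = (4 * t' ^ 2 + 1) * (t ^ 2 + 1) := by
      apply mul_left_cancel₀ hll.ne'
      linear_combination a2
    have b3 : (t ^ 2 + 1) ^ 2 * ((6 * t' ^ 2 - 3) ^ 2 - (2 * t' ^ 2 + 2) ^ 2 -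
        (4 * t' ^ 2 + 1) ^ 2) = 0 := by
      linear_combination ((2 * t) * (6 * t' ^ 2 - 3) + (2 * t' ^ 2 + 2) * (t ^ 2 + 1)) * b1 +
        ((t ^ 2 - 1) * (6 * t' ^ 2 - 3) + (4 * t' ^ 2 + 1) * (t ^ 2 + 1)) * b2
    rcases mul_eq_zero.1 b3 with h3 | h3
    · have : 0 < (t ^ 2 + 1) ^ 2 := by positivity
      linarith
    · nlinarith
  · exfalso
    obtain ⟨a1, a2⟩ := h.similar h' e3 e4 e1' e2' σ hs
    have b1 : (2 * t ^ 2 + 2) * (t' ^ 2 + 1) = (2 * t') * (6 * t ^ 2 - 3) := by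
      apply mul_left_cancel₀ hll.ne'
      linear_combination a1
    have b2 : (4 * t ^ 2 + 1) * (t' ^ 2 + 1) = (t' ^ 2 - 1) * (6 * t ^ 2 - 3) := by
      apply mul_left_cancel₀ hll.ne'
      linear_combination a2
    have b3 : (t' ^ 2 + 1) ^ 2 * ((6 * t ^ 2 - 3) ^ 2 - (2 * t ^ 2 + 2) ^ 2 -
        (4 * t ^ 2 + 1) ^ 2) = 0 := by
      linear_combination -((2 * t') * (6 * t ^ 2 - 3) + (2 * t ^ 2 + 2) * (t' ^ 2 + 1)) * b1 -
        ((t' ^ 2 - 1) * (6 * t ^ 2 - 3) + (4 * t ^ 2 + 1) * (t' ^ 2 + 1)) * b2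
    rcases mul_eq_zero.1 b3 with h3 | h3
    · have : 0 < (t' ^ 2 + 1) ^ 2 := by positivity
      linarith
    · nlinarith
  · obtain ⟨a1, -⟩ := h.similar h' e3 e4 e3' e4' σ hs
    refine ⟨rfl, ?_⟩
    have : (l * l') * ((t - t') * (t + t')) = 0 := by linear_combination -a1 / 18
    rcases mul_eq_zero.1 this with h3 | h3
    · exact absurd h3 hll.ne'
    · rcases mul_eq_zero.1 h3 with h4 | h4
      · linarith
      · exfalso; nlinarith

lemma Sides.affineIndependent {V : Fin 3 → EuclideanSpace ℝ (Fin 2)} {x y z : ℝ}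
    (h : Sides V x y z) (hxy : x < y) (hyz : y < z) (hz : z < x + y) :
    AffineIndependent ℝ V := by
  rw [affineIndependent_iff_not_collinear]
  intro hc
  obtain ⟨i, j, k, hij, hjk, hik, rfl, rfl, rfl⟩ := h
  have hr : range V = {V i, V j, V k} := by
    ext p
    simp only [mem_range, mem_insert_iff, mem_singleton_iff]
    constructor
    · rintro ⟨m, rfl⟩
      rcases cases3 i j k m hij hjk hik with rfl | rfl | rfl <;> simp
    · rintro (rfl | rfl | rfl) <;> exact ⟨_, rfl⟩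
  rw [hr] at hc
  have c1 : dist (V j) (V i) = dist (V i) (V j) := dist_comm _ _
  have c2 : dist (V k) (V j) = dist (V j) (V k) := dist_comm _ _
  have c3 : dist (V k) (V i) = dist (V i) (V k) := dist_comm _ _
  have p1 : 0 ≤ dist (V i) (V j) := dist_nonneg
  rcases hc.wbtw_or_wbtw_or_wbtw with h | h | h
  · have := h.dist_add_dist
    linarith
  · have := h.dist_add_dist
    linarith
  · have := h.dist_add_dist
    linarith

lemma dist_mk' {a b a' b' r : ℝ} (hr : 0 ≤ r) (h : (a - a') ^ 2 + (b - b') ^ 2 = r ^ 2) :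
    dist (⟨a, b⟩ : ℂ) ⟨a', b'⟩ = r := by
  rw [Complex.dist_mk, h, Real.sqrt_sq hr]

lemma T_sides {k : ℕ} {j : Fin 2} {i : Fin 3} {x y z : ℝ} (h : Sides (v k j i) x y z) :
    Sides (T (k, j, i)) x y z := by
  obtain ⟨a, b, c, h1, h2, h3, h4, h5, h6⟩ := h
  have key : ∀ a b, dist (T (k, j, i) a) (T (k, j, i) b) = dist (v k j i a) (v k j i b) :=
    fun a b => (g k).dist_map _ _
  exact ⟨a, b, c, h1, h2, h3, by rw [key, h4], by rw [key, h5], by rw [key, h6]⟩

lemma box_sides0 (x c d w w' r : ℝ) (hh : 0 ≤ c + d) (hw : 0 ≤ w) (hr : 0 ≤ r)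
    (h : w ^ 2 + (c + d) ^ 2 = r ^ 2) : Sides (box x c d w w' 0) (c + d) w r :=
  ⟨1, 0, 2, by decide, by decide, by decide, dist_mk' hh (by ring), dist_mk' hw (by ring),
    dist_mk' hr (by rw [← h]; ring)⟩

lemma box_sides2 (x c d w w' r : ℝ) (hh : 0 ≤ c + d) (hw : 0 ≤ w') (hr : 0 ≤ r)
    (h : w' ^ 2 + (c + d) ^ 2 = r ^ 2) : Sides (box x c d w w' 2) (c + d) w' r :=
  ⟨2, 1, 0, by decide, by decide, by decide, dist_mk' hh (by ring), dist_mk' hw (by ring),
    dist_mk' hr (by rw [← h]; ring)⟩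

lemma box_sides1 (x c d w w' r r' : ℝ) (hw : 0 ≤ w + w') (hr : 0 ≤ r) (hr' : 0 ≤ r')
    (h : w ^ 2 + (c + d) ^ 2 = r ^ 2) (h' : w' ^ 2 + (c + d) ^ 2 = r' ^ 2) :
    Sides (box x c d w w' 1) r' r (w + w') :=
  ⟨2, 0, 1, by decide, by decide, by decide, dist_mk' hr' (by rw [← h']; ring),
    dist_mk' hr (by rw [← h]; ring), dist_mk' hw (by ring)⟩

/-- A positive integer. -/
def IsNat (r : ℝ) : Prop := ∃ m : ℕ, 0 < m ∧ r = m

lemma isNat_sub (p q s : ℕ) (h : q < p * s ^ 2) : IsNat (p * (s : ℝ) ^ 2 - q) :=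
  ⟨p * s ^ 2 - q, by omega, by rw [Nat.cast_sub h.le]; push_cast; ring⟩

lemma isNat_add (p q s : ℕ) (h : 0 < q) : IsNat (p * (s : ℝ) ^ 2 + q) :=
  ⟨p * s ^ 2 + q, by omega, by push_cast; ring⟩

/-- The kind of the triangle. -/
def kind (i : Fin 3) : Bool := decide (i = 1)

/-- The multiplier of the triangle. -/
def mult (j : Fin 2) : Fin 3 → ℕ := if j = 0 then ![6, 3, 3] else ![2, 1, 1]

lemma T_shape (k : ℕ) (j : Fin 2) (i : Fin 3) :
    Shape (T (k, j, i)) (kind i) ((mult j i : ℕ) * (st k).s) ∧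
      ∃ x y z : ℝ, IsNat x ∧ IsNat y ∧ IsNat z ∧ Sides (T (k, j, i)) x y z := by
  have hs := sq_ge k
  have hs1 := s_ge k
  have hcd := cd_eq k
  have hsn := (st_inv k).1
  have hsn2 : 9 ≤ (st k).s ^ 2 := by nlinarith
  have nh : IsNat (12 * (st k).s) := ⟨12 * (st k).s, by omega, by push_cast; ring⟩
  have S00 : Sides (v k 0 0) (12 * (st k).s) (36 * ((st k).s : ℝ) ^ 2 - 1)
      (36 * ((st k).s : ℝ) ^ 2 + 1) := by
    have := box_sides0 (st k).b (st k).c (st k).d (36 * ((st k).s : ℝ) ^ 2 - 1)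
      (18 * ((st k).s : ℝ) ^ 2 - 2) (36 * ((st k).s : ℝ) ^ 2 + 1) (by linarith) (by linarith)
      (by linarith) (by rw [hcd]; ring)
    rwa [hcd] at this
  have S01 : Sides (v k 0 1) (18 * ((st k).s : ℝ) ^ 2 + 2) (36 * ((st k).s : ℝ) ^ 2 + 1)
      (54 * ((st k).s : ℝ) ^ 2 - 3) := by
    have := box_sides1 (st k).b (st k).c (st k).d (36 * ((st k).s : ℝ) ^ 2 - 1)
      (18 * ((st k).s : ℝ) ^ 2 - 2) (36 * ((st k).s : ℝ) ^ 2 + 1) (18 * ((st k).s : ℝ) ^ 2 + 2)
      (by linarith) (by linarith) (by linarith) (by rw [hcd]; ring) (by rw [hcd]; ring)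
    have e : (36 * ((st k).s : ℝ) ^ 2 - 1) + (18 * ((st k).s : ℝ) ^ 2 - 2) =
      54 * ((st k).s : ℝ) ^ 2 - 3 := by ring
    rwa [e] at this
  have S02 : Sides (v k 0 2) (12 * (st k).s) (18 * ((st k).s : ℝ) ^ 2 - 2)
      (18 * ((st k).s : ℝ) ^ 2 + 2) := by
    have := box_sides2 (st k).b (st k).c (st k).d (36 * ((st k).s : ℝ) ^ 2 - 1)
      (18 * ((st k).s : ℝ) ^ 2 - 2) (18 * ((st k).s : ℝ) ^ 2 + 2) (by linarith) (by linarith)
      (by linarith) (by rw [hcd]; ring)
    rwa [hcd] at this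
  have S10 : Sides (v k 1 0) (12 * (st k).s) (12 * ((st k).s : ℝ) ^ 2 - 3)
      (12 * ((st k).s : ℝ) ^ 2 + 3) := by
    have := box_sides0 ((st k).b + (54 * ((st k).s : ℝ) ^ 2 - 3)) (st k).c (st k).d
      (12 * ((st k).s : ℝ) ^ 2 - 3) (6 * ((st k).s : ℝ) ^ 2 - 6) (12 * ((st k).s : ℝ) ^ 2 + 3)
      (by linarith) (by linarith) (by linarith) (by rw [hcd]; ring)
    rwa [hcd] at this
  have S11 : Sides (v k 1 1) (6 * ((st k).s : ℝ) ^ 2 + 6) (12 * ((st k).s : ℝ) ^ 2 + 3)
      (18 * ((st k).s : ℝ) ^ 2 - 9) := by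
    have := box_sides1 ((st k).b + (54 * ((st k).s : ℝ) ^ 2 - 3)) (st k).c (st k).d
      (12 * ((st k).s : ℝ) ^ 2 - 3) (6 * ((st k).s : ℝ) ^ 2 - 6) (12 * ((st k).s : ℝ) ^ 2 + 3)
      (6 * ((st k).s : ℝ) ^ 2 + 6)
      (by linarith) (by linarith) (by linarith) (by rw [hcd]; ring) (by rw [hcd]; ring)
    have e : (12 * ((st k).s : ℝ) ^ 2 - 3) + (6 * ((st k).s : ℝ) ^ 2 - 6) =
      18 * ((st k).s : ℝ) ^ 2 - 9 := by ring
    rwa [e] at this
  have S12 : Sides (v k 1 2) (12 * (st k).s) (6 * ((st k).s : ℝ) ^ 2 - 6)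
      (6 * ((st k).s : ℝ) ^ 2 + 6) := by
    have := box_sides2 ((st k).b + (54 * ((st k).s : ℝ) ^ 2 - 3)) (st k).c (st k).d
      (12 * ((st k).s : ℝ) ^ 2 - 3) (6 * ((st k).s : ℝ) ^ 2 - 6) (6 * ((st k).s : ℝ) ^ 2 + 6)
      (by linarith) (by linarith) (by linarith) (by rw [hcd]; ring)
    rwa [hcd] at this
  have N : ∀ p q : ℕ, q < 6 * p → IsNat (p * ((st k).s : ℝ) ^ 2 - q) := fun p q h =>
    isNat_sub p q _ (by nlinarith)
  have A : ∀ p q : ℕ, 0 < q → IsNat (p * ((st k).s : ℝ) ^ 2 + q) := fun p q h =>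
    isNat_add p q _ h
  fin_cases j <;> fin_cases i
  · refine ⟨⟨1, one_pos, ?_⟩, _, _, _, nh, by simpa using N 36 1 (by norm_num),
      by simpa using A 36 1 (by norm_num), T_sides S00⟩
    have := T_sides S00
    simp only [kind, mult]
    convert this using 1 <;> (simp; try ring_nf)
  · refine ⟨⟨1, one_pos, ?_⟩, _, _, _, by simpa using A 18 2 (by norm_num),
      by simpa using A 36 1 (by norm_num), by simpa using N 54 3 (by norm_num), T_sides S01⟩
    have := T_sides S01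
    simp only [kind, mult]
    convert this using 1 <;> (simp; try ring_nf)
  · refine ⟨⟨2, two_pos, ?_⟩, _, _, _, nh, by simpa using N 18 2 (by norm_num),
      by simpa using A 18 2 (by norm_num), T_sides S02⟩
    have := T_sides S02
    simp only [kind, mult]
    convert this using 1 <;> (simp; try ring_nf)
  · refine ⟨⟨3, by norm_num, ?_⟩, _, _, _, nh, by simpa using N 12 3 (by norm_num),
      by simpa using A 12 3 (by norm_num), T_sides S10⟩
    have := T_sides S10
    simp only [kind, mult]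
    convert this using 1 <;> (simp; try ring_nf)
  · refine ⟨⟨3, by norm_num, ?_⟩, _, _, _, by simpa using A 6 6 (by norm_num),
      by simpa using A 12 3 (by norm_num), by simpa using N 18 9 (by norm_num), T_sides S11⟩
    have := T_sides S11
    simp only [kind, mult]
    convert this using 1 <;> (simp; try ring_nf)
  · refine ⟨⟨6, by norm_num, ?_⟩, _, _, _, nh, by simpa using N 6 6 (by norm_num),
      by simpa using A 6 6 (by norm_num), T_sides S12⟩
    have := T_sides S12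
    simp only [kind, mult]
    convert this using 1 <;> (simp; try ring_nf)

lemma mult_bounds (j : Fin 2) (i : Fin 3) : 1 ≤ mult j i ∧ mult j i ≤ 6 := by
  revert j i; decide

lemma code_inj : ∀ (j j' : Fin 2) (i i' : Fin 3), kind i = kind i' → mult j i = mult j' i' →
    j = j' ∧ i = i' := by decide

/-! ### Transfer to the Euclidean plane -/

noncomputable def e : ℂ ≃ₗᵢ[ℝ] EuclideanSpace ℝ (Fin 2) := Complex.orthonormalBasisOneI.repr

/-- The tiles in the Euclidean plane. -/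
noncomputable def T' (x : ℕ × Fin 2 × Fin 3) (i : Fin 3) : EuclideanSpace ℝ (Fin 2) := e (T x i)

lemma hull_T' (x : ℕ × Fin 2 × Fin 3) :
    convexHull ℝ (range (T' x)) = e '' convexHull ℝ (range (T x)) := by
  have h1 : range (T' x) = e.toLinearEquiv.toLinearMap '' range (T x) := by
    rw [← range_comp]; rfl
  rw [h1, ← LinearMap.image_convexHull]
  rfl

lemma sides_T' {x : ℕ × Fin 2 × Fin 3} {a b c : ℝ} (h : Sides (T x) a b c) :
    Sides (T' x) a b c := by
  obtain ⟨i, j, k, h1, h2, h3, h4, h5, h6⟩ := h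
  have key : ∀ a b, dist (T' x a) (T' x b) = dist (T x a) (T x b) := fun a b => e.dist_map _ _
  exact ⟨i, j, k, h1, h2, h3, by rw [key, h4], by rw [key, h5], by rw [key, h6]⟩

lemma shape_T' {x : ℕ × Fin 2 × Fin 3} {κ : Bool} {t : ℝ} (h : Shape (T x) κ t) :
    Shape (T' x) κ t := by
  obtain ⟨l, hl, h⟩ := h
  refine ⟨l, hl, ?_⟩
  cases κ
  · exact sides_T' h
  · exact sides_T' h

/-- There is a tiling of the plane by triangles with positive integer side lengths, no two of which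
are similar: a family `T` of triples of affinely independent points (the vertices of the tiles) such
that the closed triangles cover the plane, have pairwise disjoint interiors and integer side
lengths, and no two different triangles are similar for any order of the vertices. -/
theorem result : ∃ (ι : Type) (T : ι → Fin 3 → EuclideanSpace ℝ (Fin 2)),
    (∀ x, AffineIndependent ℝ (T x)) ∧
    (⋃ x, convexHull ℝ (range (T x))) = univ ∧
    (∀ x y, x ≠ y →
      Disjoint (interior (convexHull ℝ (range (T x)))) (interior (convexHull ℝ (range (T y))))) ∧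
    (∀ x i j, i ≠ j → ∃ m : ℕ, 0 < m ∧ dist (T x i) (T x j) = m) ∧
    (∀ x y, x ≠ y → ∀ σ : Equiv.Perm (Fin 3), ¬ Similar (T x) (T y ∘ σ)) := by
  refine ⟨ℕ × Fin 2 × Fin 3, T', ?_, ?_, ?_, ?_, ?_⟩
  · rintro ⟨k, j, i⟩
    obtain ⟨l, hl, h⟩ := shape_T' (T_shape k j i).1
    have hs1 := s_ge k
    have hm : (1 : ℝ) ≤ (mult j i : ℕ) := by exact_mod_cast (mult_bounds j i).1
    set t : ℝ := (mult j i : ℕ) * (st k).s with ht
    have ht3 : 3 ≤ t := by rw [ht]; nlinarith
    cases hk : kind i <;> rw [hk] at h <;> simp only [Bool.false_eq_true, if_true, if_false] at h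
    · exact h.affineIndependent (mul_lt_mul_of_pos_left (by nlinarith) hl)
        (mul_lt_mul_of_pos_left (by linarith) hl) (by nlinarith)
    · exact h.affineIndependent (mul_lt_mul_of_pos_left (by nlinarith) hl)
        (mul_lt_mul_of_pos_left (by nlinarith) hl) (by nlinarith)
  · rw [eq_univ_iff_forall]
    intro z
    obtain ⟨k, hk⟩ := exists_mem_R (e.symm z)
    obtain ⟨x, hx⟩ := cover k _ hk
    rw [mem_iUnion]
    exact ⟨x, by rw [hull_T']; exact ⟨_, hx, e.apply_symm_apply z⟩⟩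
  · intro x y hxy
    rw [hull_T', hull_T']
    have key : ∀ S : Set ℂ, interior (e '' S) = e '' interior S := fun S =>
      (e.toHomeomorph.image_interior S).symm
    rw [key, key]
    exact (disjoint_image_iff e.injective).2 (disj_all x y hxy)
  · rintro ⟨k, j, i⟩ a b hab
    obtain ⟨x, y, z, hx, hy, hz, hS⟩ := (T_shape k j i).2
    obtain ⟨a', b', c', h1, h2, h3, h4, h5, h6⟩ := sides_T' hS
    have g4 : dist (T' (k, j, i) b') (T' (k, j, i) a') = x := by rw [dist_comm, h4]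
    have g5 : dist (T' (k, j, i) c') (T' (k, j, i) b') = y := by rw [dist_comm, h5]
    have g6 : dist (T' (k, j, i) c') (T' (k, j, i) a') = z := by rw [dist_comm, h6]
    obtain ⟨mx, px, rfl⟩ := hx
    obtain ⟨my, py, rfl⟩ := hy
    obtain ⟨mz, pz, rfl⟩ := hz
    rcases cases3 _ _ _ a h1 h2 h3 with rfl | rfl | rfl <;>
    rcases cases3 _ _ _ b h1 h2 h3 with rfl | rfl | rfl
    · exact absurd rfl hab
    · exact ⟨mx, px, h4⟩
    · exact ⟨mz, pz, h6⟩
    · exact ⟨mx, px, g4⟩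
    · exact absurd rfl hab
    · exact ⟨my, py, h5⟩
    · exact ⟨mz, pz, g6⟩
    · exact ⟨my, py, g5⟩
    · exact absurd rfl hab
  · rintro ⟨k, j, i⟩ ⟨k', j', i'⟩ hxy σ hs
    have hm := mult_bounds j i
    have hm' := mult_bounds j' i'
    have s3 := (st_inv k).1
    have s3' := (st_inv k').1
    have t3 : (3 : ℝ) ≤ (mult j i : ℕ) * (st k).s := by
      have : 3 ≤ mult j i * (st k).s := by nlinarith
      exact_mod_cast this
    have t3' : (3 : ℝ) ≤ (mult j' i' : ℕ) * (st k').s := by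
      have : 3 ≤ mult j' i' * (st k').s := by nlinarith
      exact_mod_cast this
    obtain ⟨h1, h2⟩ := (shape_T' (T_shape k j i).1).similar (shape_T' (T_shape k' j' i').1) t3 t3'
      σ hs
    have h2' : mult j i * (st k).s = mult j' i' * (st k').s := by exact_mod_cast h2
    rcases lt_trichotomy k k' with hk | hk | hk
    · have := s_lt hk
      nlinarith
    · subst hk
      have h4 : mult j i = mult j' i' := Nat.eq_of_mul_eq_mul_right (by omega) h2'
      obtain ⟨rfl, rfl⟩ := code_inj j j' i i' h1 h4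
      exact hxy rfl
    · have := s_lt hk
      nlinarith

end Pool.Agent.Results.MP_0d7d47_co.RectangleSpiral
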